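import Pool.Agent.R228.LD.Moment

/-!
# The curse of dimensionality for the generalized L1 discrepancy with non-negative weights
-/

set_option autoImplicit false

namespace Pool.Agent.R228.LD

open MeasureTheory

variable {d : ℕ}

/-- The generalized L1 discrepancy of the quadrature formula with nodes `t` and weights `a`. -/
noncomputable def disc {N : ℕ} (t : Fin N → Fin d → ℝ) (a : Fin N → ℝ) : ℝ :=
  ∫ x in Set.Icc (0 : Fin d → ℝ) 1,
    |∑ k, a k * (if ∀ j, t k j < x j then 1 else 0) - ∏ j, x j|

/-- The indicator of an anchored box as a product. -/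
theorem box_eq (t x : Fin d → ℝ) :
    (if ∀ j, t j < x j then (1 : ℝ) else 0) = ∏ j, st (t j) (x j) := by
  unfold st
  rw [Finset.prod_ite_zero]
  simp

/-- The indicator of the box above `t`. -/
noncomputable def bx (t x : Fin d → ℝ) : ℝ := ∏ j, st (t j) (x j)

theorem bx_nonneg (t x : Fin d → ℝ) : 0 ≤ bx t x := Finset.prod_nonneg fun _ _ => st_nonneg _ _

theorem bx_le_one (t x : Fin d → ℝ) : bx t x ≤ 1 :=
  Finset.prod_le_one (fun _ _ => st_nonneg _ _) fun _ _ => st_le_one _ _

theorem bx_zero_or_one (t x : Fin d → ℝ) : bx t x = 0 ∨ bx t x = 1 := by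
  unfold bx
  rw [← box_eq]
  split_ifs
  · exact Or.inr rfl
  · exact Or.inl rfl

theorem bx_measurable (t : Fin d → ℝ) : Measurable (bx t) := by
  unfold bx
  exact Finset.measurable_prod _ fun j _ => (st_measurable _).comp (measurable_pi_apply j)

/-- The product of the coordinates. -/
noncomputable def mu (x : Fin d → ℝ) : ℝ := ∏ j, x j

theorem mu_measurable : Measurable (mu (d := d)) := by
  unfold mu
  exact Finset.measurable_prod _ fun j _ => measurable_pi_apply j

theorem ae_mem : ∀ᵐ x ∂(cube d), x ∈ Set.Icc (0 : Fin d → ℝ) 1 := by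
  rw [cube_eq]
  exact ae_restrict_mem measurableSet_Icc

theorem mu_nonneg {x : Fin d → ℝ} (hx : x ∈ Set.Icc (0 : Fin d → ℝ) 1) : 0 ≤ mu x :=
  Finset.prod_nonneg fun j _ => hx.1 j

theorem mu_le_one {x : Fin d → ℝ} (hx : x ∈ Set.Icc (0 : Fin d → ℝ) 1) : mu x ≤ 1 :=
  Finset.prod_le_one (fun j _ => hx.1 j) fun j _ => hx.2 j

/-- Bounded measurable functions are integrable. -/
theorem integrable_bdd {f : (Fin d → ℝ) → ℝ} (hf : Measurable f) {c : ℝ}
    (hb : ∀ x ∈ Set.Icc (0 : Fin d → ℝ) 1, |f x| ≤ c) : Integrable f (cube d) := by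
  refine Integrable.mono' (g := fun _ => c) (integrable_const _) hf.aestronglyMeasurable ?_
  filter_upwards [ae_mem] with x hx
  exact hb x hx

theorem mu_integral : ∫ x, mu x ∂(cube d) = (1 / 2) ^ d := by
  unfold mu cube
  rw [integral_fintype_prod_eq_prod (fun _ x => x)]
  rw [Finset.prod_congr rfl fun j _ => integral_rho fun x => x]
  rw [Finset.prod_const, integral_id]
  simp

theorem bx_integral {t : Fin d → ℝ} (h0 : ∀ j, 0 ≤ t j) (h1 : ∀ j, t j ≤ 1) :
    ∫ x, bx t x ∂(cube d) = ∏ j, (1 - t j) := by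
  unfold bx cube
  rw [integral_fintype_prod_eq_prod (fun j x => st (t j) x)]
  refine Finset.prod_congr rfl fun j _ => ?_
  have := integral_st (f := fun _ => 1) (h0 j) (h1 j)
  simp only [one_mul] at this
  rw [this]
  simp

theorem bx_mu_integral {t : Fin d → ℝ} (h0 : ∀ j, 0 ≤ t j) (h1 : ∀ j, t j ≤ 1) :
    ∫ x, mu x * bx t x ∂(cube d) = (1 / 2) ^ d * ∏ j, (1 - t j ^ 2) := by
  have e : ∀ x : Fin d → ℝ, mu x * bx t x = ∏ j, (x j * st (t j) (x j)) := by
    intro x
    unfold mu bx
    rw [Finset.prod_mul_distrib]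
  simp only [e]
  unfold cube
  rw [integral_fintype_prod_eq_prod (fun j x => x * st (t j) x)]
  have : ∀ j, ∫ x, x * st (t j) x ∂rho = 1 / 2 * (1 - t j ^ 2) := by
    intro j
    rw [integral_st (f := fun x => x) (h0 j) (h1 j), integral_id]
    ring
  simp only [this]
  rw [Finset.prod_mul_distrib, Finset.prod_const]
  simp

theorem integral_sq_sub (a b m : ℝ) :
    ∫ x in a..b, (x - m) ^ 2 = ((b - m) ^ 3 - (a - m) ^ 3) / 3 := by
  rw [intervalIntegral.integral_comp_sub_right (fun x => x ^ 2), integral_pow]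
  norm_num

theorem integral_sub_const' (a b m : ℝ) :
    ∫ x in a..b, (x - m) = ((b - m) ^ 2 - (a - m) ^ 2) / 2 := by
  rw [intervalIntegral.integral_comp_sub_right (fun x => x), integral_id]

/-- The mass of a box far from the middle of the cube is small. -/
theorem tail_box (hd : 0 < d) {t : Fin d → ℝ} (h0 : ∀ j, 0 ≤ t j) (h1 : ∀ j, t j < 1)
    (hs : ∑ j, t j ≤ d / 10) :
    ∫ x, (if ∑ j, x j < 3 / 5 * d then (0 : ℝ) else 1) * bx t x ∂(cube d) ≤
      34 / d * ∏ j, (1 - t j) := by
  have hd' : (0 : ℝ) < d := by exact_mod_cast hd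
  obtain ⟨i1, e1⟩ := second_moment (fun j => st (t j)) (fun j => (1 + t j) / 2)
    (fun j => (1 - t j) ^ 2 / 12)
    (fun j => by simpa using integrable_st (f := fun _ => 1) continuous_const (t j))
    (fun j => integrable_st (f := fun x => x - (1 + t j) / 2) (by fun_prop) (t j))
    (fun j => integrable_st (f := fun x => (x - (1 + t j) / 2) ^ 2) (by fun_prop) (t j))
    (fun j => by
      rw [integral_st (f := fun x => x - (1 + t j) / 2) (h0 j) (h1 j).le, integral_sub_const']
      ring)
    (fun j => by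
      rw [integral_st (f := fun x => (x - (1 + t j) / 2) ^ 2) (h0 j) (h1 j).le, integral_sq_sub]
      have := integral_st (f := fun _ => 1) (h0 j) (h1 j).le
      simp only [one_mul] at this
      rw [this]
      simp
      ring)
  have e2 : ∀ j, ∫ x, st (t j) x ∂rho = 1 - t j := by
    intro j
    have := integral_st (f := fun _ => 1) (h0 j) (h1 j).le
    simp only [one_mul] at this
    rw [this]
    simp
  simp only [e2] at e1
  have hP : 0 ≤ ∏ j, (1 - t j) := Finset.prod_nonneg fun j _ => by linarith [h1 j]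
  have h3 : ∑ j, (1 - t j) ^ 2 / 12 ≤ (d : ℝ) / 12 := by
    calc ∑ j, (1 - t j) ^ 2 / 12 ≤ ∑ _j : Fin d, (1 / 12 : ℝ) := by
          refine Finset.sum_le_sum fun j _ => ?_
          have := h0 j
          have := h1 j
          nlinarith
      _ = d / 12 := by
          simp
          ring
  have hpt : ∀ x : Fin d → ℝ, (if ∑ j, x j < 3 / 5 * d then (0 : ℝ) else 1) * bx t x ≤
      (400 / (d : ℝ) ^ 2) * ((∑ j, (x j - (1 + t j) / 2)) ^ 2 * ∏ j, st (t j) (x j)) := by
    intro x
    have hb := bx_nonneg t x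
    split_ifs with h
    · rw [zero_mul]
      have : 0 ≤ ∏ j, st (t j) (x j) := hb
      positivity
    · push Not at h
      have e3 : ∑ j, (x j - (1 + t j) / 2) = ∑ j, x j - d / 2 - (∑ j, t j) / 2 := by
        rw [Finset.sum_sub_distrib, ← Finset.sum_div, Finset.sum_add_distrib]
        simp
        ring
      have h4 : (d : ℝ) / 20 ≤ ∑ j, (x j - (1 + t j) / 2) := by
        rw [e3]
        linarith
      have h5 : ((d : ℝ) / 20) ^ 2 ≤ (∑ j, (x j - (1 + t j) / 2)) ^ 2 :=
        pow_le_pow_left₀ (by positivity) h4 2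
      have h6 : 1 ≤ 400 / (d : ℝ) ^ 2 * (∑ j, (x j - (1 + t j) / 2)) ^ 2 := by
        calc (1 : ℝ) = 400 / (d : ℝ) ^ 2 * ((d : ℝ) / 20) ^ 2 := by
              field_simp
              norm_num
          _ ≤ _ := mul_le_mul_of_nonneg_left h5 (by positivity)
      calc (1 : ℝ) * bx t x ≤ (400 / (d : ℝ) ^ 2 * (∑ j, (x j - (1 + t j) / 2)) ^ 2) * bx t x :=
            mul_le_mul_of_nonneg_right h6 hb
        _ = _ := by
            unfold bx
            ring
  have i2 : Integrable (fun x : Fin d → ℝ =>
      (if ∑ j, x j < 3 / 5 * d then (0 : ℝ) else 1) * bx t x) (cube d) := by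
    refine integrable_bdd (c := 1) ?_ fun x _ => ?_
    · refine Measurable.mul ?_ (bx_measurable t)
      refine Measurable.ite ?_ measurable_const measurable_const
      exact measurableSet_lt (Finset.measurable_sum _ fun j _ => measurable_pi_apply j)
        measurable_const
    · rw [abs_of_nonneg (mul_nonneg (by split_ifs <;> norm_num) (bx_nonneg t x))]
      have := bx_le_one t x
      have := bx_nonneg t x
      split_ifs <;> linarith
  calc ∫ x, (if ∑ j, x j < 3 / 5 * d then (0 : ℝ) else 1) * bx t x ∂(cube d)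
      ≤ ∫ x, (400 / (d : ℝ) ^ 2) * ((∑ j, (x j - (1 + t j) / 2)) ^ 2 * ∏ j, st (t j) (x j))
          ∂(cube d) := integral_mono i2 (i1.const_mul _) hpt
    _ = (400 / (d : ℝ) ^ 2) * ((∑ j, (1 - t j) ^ 2 / 12) * ∏ j, (1 - t j)) := by
        rw [integral_const_mul, e1]
    _ ≤ (400 / (d : ℝ) ^ 2) * ((d / 12) * ∏ j, (1 - t j)) := by gcongr
    _ ≤ 34 / d * ∏ j, (1 - t j) := by
        have : (400 / (d : ℝ) ^ 2) * ((d / 12) * ∏ j, (1 - t j)) =
            (400 / 12) / d * ∏ j, (1 - t j) := by
          field_simp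
        rw [this]
        gcongr
        norm_num

/-- The mass of `mu` away from its centre is small. -/
theorem tail_mu (hd : 0 < d) :
    ∫ x, (if ∑ j, x j < 3 / 5 * d then (1 : ℝ) else 0) * mu x ∂(cube d) ≤
      25 / (2 * d) * (1 / 2) ^ d := by
  have hd' : (0 : ℝ) < d := by exact_mod_cast hd
  have e0 : ∫ x, x ∂rho = 1 / 2 := by
    rw [integral_rho fun x => x, integral_id]
    norm_num
  obtain ⟨i1, e1⟩ := second_moment (d := d) (fun _ x => x) (fun _ => 2 / 3)
    (fun _ => 1 / 18)
    (fun _ => integrable_cont continuous_id)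
    (fun _ => integrable_cont (by fun_prop))
    (fun _ => integrable_cont (by fun_prop))
    (fun _ => by
      rw [integral_rho fun x => (x - 2 / 3) * x]
      have : ∀ x : ℝ, (x - 2 / 3) * x = x ^ 2 - 2 / 3 * x := fun x => by ring
      simp only [this]
      rw [intervalIntegral.integral_sub (by apply Continuous.intervalIntegrable; fun_prop)
        (by apply Continuous.intervalIntegrable; fun_prop), intervalIntegral.integral_const_mul,
        integral_pow, integral_id]
      norm_num)
    (fun _ => by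
      rw [integral_rho fun x => (x - 2 / 3) ^ 2 * x, e0]
      have : ∀ x : ℝ, (x - 2 / 3) ^ 2 * x = x ^ 3 - 4 / 3 * x ^ 2 + 4 / 9 * x := fun x => by ring
      simp only [this]
      rw [intervalIntegral.integral_add (by apply Continuous.intervalIntegrable; fun_prop)
        (by apply Continuous.intervalIntegrable; fun_prop),
        intervalIntegral.integral_sub (by apply Continuous.intervalIntegrable; fun_prop)
        (by apply Continuous.intervalIntegrable; fun_prop), intervalIntegral.integral_const_mul,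
        intervalIntegral.integral_const_mul, integral_pow, integral_pow, integral_id]
      norm_num)
  simp only [e0] at e1
  rw [Finset.prod_const, Finset.sum_const, Finset.card_univ, Fintype.card_fin, nsmul_eq_mul] at e1
  have i2 : Integrable (fun x : Fin d → ℝ =>
      (if ∑ j, x j < 3 / 5 * d then (1 : ℝ) else 0) * mu x) (cube d) := by
    refine integrable_bdd (c := 1) ?_ fun x hx => ?_
    · refine Measurable.mul ?_ mu_measurable
      refine Measurable.ite ?_ measurable_const measurable_const
      exact measurableSet_lt (Finset.measurable_sum _ fun j _ => measurable_pi_apply j)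
        measurable_const
    · rw [abs_of_nonneg (mul_nonneg (by split_ifs <;> norm_num) (mu_nonneg hx))]
      have := mu_le_one hx
      have := mu_nonneg hx
      split_ifs <;> linarith
  have hpt : ∀ᵐ x ∂(cube d), (if ∑ j, x j < 3 / 5 * (d : ℝ) then (1 : ℝ) else 0) * mu x ≤
      (225 / (d : ℝ) ^ 2) * ((∑ j : Fin d, (x j - 2 / 3)) ^ 2 * ∏ j, x j) := by
    filter_upwards [ae_mem] with x hx
    have hb := mu_nonneg hx
    have e3 : ∑ j : Fin d, (x j - 2 / 3) = ∑ j, x j - 2 / 3 * d := by
      rw [Finset.sum_sub_distrib]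
      simp
      ring
    split_ifs with h
    · have h4 : (d : ℝ) / 15 ≤ -(∑ j : Fin d, (x j - 2 / 3)) := by
        rw [e3]
        linarith
      have h5 : ((d : ℝ) / 15) ^ 2 ≤ (-(∑ j : Fin d, (x j - 2 / 3))) ^ 2 :=
        pow_le_pow_left₀ (by positivity) h4 2
      rw [neg_sq] at h5
      have h6 : 1 ≤ 225 / (d : ℝ) ^ 2 * (∑ j : Fin d, (x j - 2 / 3)) ^ 2 := by
        calc (1 : ℝ) = 225 / (d : ℝ) ^ 2 * ((d : ℝ) / 15) ^ 2 := by
              field_simp
              norm_num
          _ ≤ _ := mul_le_mul_of_nonneg_left h5 (by positivity)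
      calc (1 : ℝ) * mu x ≤ (225 / (d : ℝ) ^ 2 * (∑ j : Fin d, (x j - 2 / 3)) ^ 2) * mu x :=
            mul_le_mul_of_nonneg_right h6 hb
        _ = _ := by
            unfold mu
            ring
    · rw [zero_mul]
      have : 0 ≤ ∏ j, x j := hb
      positivity
  calc ∫ x, (if ∑ j, x j < 3 / 5 * d then (1 : ℝ) else 0) * mu x ∂(cube d)
      ≤ ∫ x, (225 / (d : ℝ) ^ 2) * ((∑ j : Fin d, (x j - 2 / 3)) ^ 2 * ∏ j, x j)
          ∂(cube d) := integral_mono_ae i2 (i1.const_mul _) hpt
    _ = (225 / (d : ℝ) ^ 2) * ((d * (1 / 18)) * (1 / 2) ^ d) := by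
        rw [integral_const_mul, e1]
    _ = 25 / (2 * d) * (1 / 2) ^ d := by
        field_simp
        norm_num

/-- The test function inequality. -/
theorem test_le {N : ℕ} {t : Fin N → Fin d → ℝ} {a : Fin N → ℝ} {φ : (Fin d → ℝ) → ℝ}
    (hφ : Measurable φ) (hφ1 : ∀ x, |φ x| ≤ 1) :
    (∑ k, a k * ∫ x, φ x * bx (t k) x ∂(cube d)) - ∫ x, φ x * mu x ∂(cube d) ≤ disc t a := by
  have ik : ∀ k, Integrable (fun x => φ x * bx (t k) x) (cube d) := fun k =>
    integrable_bdd (c := 1) (hφ.mul (bx_measurable _)) fun x _ => by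
      rw [abs_mul]
      have h1 := hφ1 x
      have h2 : |bx (t k) x| ≤ 1 := by
        rw [abs_of_nonneg (bx_nonneg _ _)]
        exact bx_le_one _ _
      calc |φ x| * |bx (t k) x| ≤ 1 * 1 := by gcongr
        _ = 1 := one_mul 1
  have im : Integrable (fun x => φ x * mu x) (cube d) :=
    integrable_bdd (c := 1) (hφ.mul mu_measurable) fun x hx => by
      rw [abs_mul]
      have h1 := hφ1 x
      have h2 : |mu x| ≤ 1 := by
        rw [abs_of_nonneg (mu_nonneg hx)]
        exact mu_le_one hx
      calc |φ x| * |mu x| ≤ 1 * 1 := by gcongr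
        _ = 1 := one_mul 1
  have is : Integrable (fun x => ∑ k, a k * (φ x * bx (t k) x)) (cube d) :=
    integrable_finsetSum _ fun k _ => (ik k).const_mul _
  have e1 : (∑ k, a k * ∫ x, φ x * bx (t k) x ∂(cube d)) - ∫ x, φ x * mu x ∂(cube d) =
      ∫ x, φ x * ((∑ k, a k * bx (t k) x) - mu x) ∂(cube d) := by
    have h1 : ∀ x, φ x * ((∑ k, a k * bx (t k) x) - mu x) =
        (∑ k, a k * (φ x * bx (t k) x)) - φ x * mu x := by
      intro x
      rw [mul_sub, Finset.mul_sum]
      congr 1
      exact Finset.sum_congr rfl fun k _ => by ring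
    simp only [h1]
    rw [integral_sub is im, integral_finsetSum _ fun k _ => (ik k).const_mul _]
    congr 1
    exact Finset.sum_congr rfl fun k _ => (integral_const_mul _ _).symm
  rw [e1]
  unfold disc
  rw [← cube_eq]
  have iD : Integrable (fun x => |(∑ k, a k * bx (t k) x) - mu x|) (cube d) := by
    refine Integrable.abs (Integrable.sub ?_ ?_)
    · refine integrable_finsetSum _ fun k _ => Integrable.const_mul ?_ _
      refine integrable_bdd (c := 1) (bx_measurable _) fun x _ => ?_
      rw [abs_of_nonneg (bx_nonneg _ _)]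
      exact bx_le_one _ _
    · refine integrable_bdd (c := 1) mu_measurable fun x hx => ?_
      rw [abs_of_nonneg (mu_nonneg hx)]
      exact mu_le_one hx
  have e2 : ∀ x : Fin d → ℝ, |∑ k, a k * (if ∀ j, t k j < x j then (1 : ℝ) else 0) - ∏ j, x j| =
      |(∑ k, a k * bx (t k) x) - mu x| := by
    intro x
    simp only [box_eq]
    rfl
  simp only [e2]
  refine integral_mono ?_ iD fun x => ?_
  · have h1 : ∀ x, φ x * ((∑ k, a k * bx (t k) x) - mu x) =
        (∑ k, a k * (φ x * bx (t k) x)) - φ x * mu x := by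
      intro x
      rw [mul_sub, Finset.mul_sum]
      congr 1
      exact Finset.sum_congr rfl fun k _ => by ring
    simp only [h1]
    exact is.sub im
  · refine (le_abs_self _).trans ?_
    rw [abs_mul]
    exact mul_le_of_le_one_left (abs_nonneg _) (hφ1 x)

/-- The main estimate. -/
theorem card_ge (hd : 3400 ≤ d) {N : ℕ} {t : Fin N → Fin d → ℝ} {a : Fin N → ℝ}
    (h0 : ∀ k j, 0 ≤ t k j) (h1 : ∀ k j, t k j < 1) (ha : ∀ k, 0 ≤ a k)
    (hdisc : disc t a < 1 / 7 * (1 / 2) ^ d) : Real.exp (d / 100) / 2 ≤ N := by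
  classical
  have hd0 : 0 < d := by omega
  have hd' : (3400 : ℝ) ≤ d := by exact_mod_cast hd
  set u : ℝ := (1 / 2) ^ d with hu
  have hu0 : 0 < u := by positivity
  set b : Fin N → ℝ := fun k => ∏ j, (1 - t k j) with hb
  have hb0 : ∀ k, 0 ≤ b k := fun k => Finset.prod_nonneg fun j _ => by linarith [h1 k j]
  have hbi : ∀ k, ∫ x, bx (t k) x ∂(cube d) = b k := fun k =>
    bx_integral (h0 k) fun j => (h1 k j).le
  have ibx : ∀ k, Integrable (bx (t k)) (cube d) := fun k =>
    integrable_bdd (c := 1) (bx_measurable _) fun x _ => by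
      rw [abs_of_nonneg (bx_nonneg _ _)]
      exact bx_le_one _ _
  set K : Finset (Fin N) := Finset.univ.filter fun k =>
    ∏ j, (1 - t k j ^ 2) ≤ Real.exp (-(d / 100)) with hK
  set S1 : ℝ := ∑ k ∈ K, a k * b k with hS1
  set S2 : ℝ := ∑ k ∈ Kᶜ, a k * b k with hS2
  have hS : S1 + S2 = ∑ k, a k * b k := Finset.sum_add_sum_compl K _
  -- first test function
  have t1 : u - (S1 + S2) ≤ disc t a := by
    have := test_le (t := t) (a := a) (φ := fun _ => -1) measurable_const (fun _ => by norm_num)
    simp only [neg_mul, one_mul, integral_neg, hbi, mu_integral, mul_neg, Finset.sum_neg_distrib]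
      at this
    rw [hS]
    linarith
  -- second test function
  have t2 : S1 - N * Real.exp (-(d / 100)) * u ≤ disc t a := by
    set φ : (Fin d → ℝ) → ℝ := fun x => if ∃ k ∈ K, bx (t k) x = 1 then 1 else 0 with hφ
    have hφm : Measurable φ := by
      refine Measurable.ite ?_ measurable_const measurable_const
      have : {x : Fin d → ℝ | ∃ k ∈ K, bx (t k) x = 1} = ⋃ k ∈ K, {x | bx (t k) x = 1} := by
        ext x
        simp
      rw [this]
      exact Finset.measurableSet_biUnion _ fun k _ =>
        bx_measurable (t k) (measurableSet_singleton 1)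
    have hφ0 : ∀ x, 0 ≤ φ x := by
      intro x
      simp only [hφ]
      split_ifs <;> norm_num
    have hφ1 : ∀ x, |φ x| ≤ 1 := by
      intro x
      rw [abs_of_nonneg (hφ0 x)]
      simp only [hφ]
      split_ifs <;> norm_num
    have h2 := test_le (t := t) (a := a) hφm hφ1
    have h3 : S1 ≤ ∑ k, a k * ∫ x, φ x * bx (t k) x ∂(cube d) := by
      calc S1 = ∑ k ∈ K, a k * ∫ x, φ x * bx (t k) x ∂(cube d) := by
            refine Finset.sum_congr rfl fun k hk => ?_
            rw [← hbi k]
            congr 1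
            refine integral_congr_ae (Filter.Eventually.of_forall fun x => ?_)
            simp only
            rcases bx_zero_or_one (t k) x with h | h
            · rw [h, mul_zero]
            · rw [h, mul_one]
              simp only [hφ]
              rw [if_pos ⟨k, hk, h⟩]
        _ ≤ ∑ k, a k * ∫ x, φ x * bx (t k) x ∂(cube d) := by
            refine Finset.sum_le_sum_of_subset_of_nonneg (Finset.subset_univ _) fun k _ _ => ?_
            exact mul_nonneg (ha k) (integral_nonneg fun x => mul_nonneg (hφ0 x) (bx_nonneg _ _))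
    have imb : ∀ k, Integrable (fun x => mu x * bx (t k) x) (cube d) := fun k =>
      integrable_bdd (c := 1) (mu_measurable.mul (bx_measurable _)) fun x hx => by
        rw [abs_of_nonneg (mul_nonneg (mu_nonneg hx) (bx_nonneg _ _))]
        calc mu x * bx (t k) x ≤ 1 * 1 :=
              mul_le_mul (mu_le_one hx) (bx_le_one _ _) (bx_nonneg _ _) zero_le_one
          _ = 1 := one_mul 1
    have h4 : ∫ x, φ x * mu x ∂(cube d) ≤ N * Real.exp (-(d / 100)) * u := by
      calc ∫ x, φ x * mu x ∂(cube d) ≤ ∫ x, ∑ k ∈ K, mu x * bx (t k) x ∂(cube d) := by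
            refine integral_mono_ae ?_ (integrable_finsetSum _ fun k _ => imb k) ?_
            · exact integrable_bdd (c := 1) (hφm.mul mu_measurable) fun x hx => by
                rw [abs_mul, abs_of_nonneg (mu_nonneg hx)]
                calc |φ x| * mu x ≤ 1 * 1 :=
                      mul_le_mul (hφ1 x) (mu_le_one hx) (mu_nonneg hx) zero_le_one
                  _ = 1 := one_mul 1
            · filter_upwards [ae_mem] with x hx
              have hnn : ∀ k ∈ K, 0 ≤ mu x * bx (t k) x := fun k _ =>
                mul_nonneg (mu_nonneg hx) (bx_nonneg _ _)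
              simp only [hφ]
              split_ifs with h
              · obtain ⟨k, hk, hk1⟩ := h
                rw [one_mul]
                have := Finset.single_le_sum hnn hk
                rw [hk1, mul_one] at this
                exact this
              · rw [zero_mul]
                exact Finset.sum_nonneg hnn
        _ = ∑ k ∈ K, u * ∏ j, (1 - t k j ^ 2) := by
            rw [integral_finsetSum _ fun k _ => imb k]
            exact Finset.sum_congr rfl fun k _ => bx_mu_integral (h0 k) fun j => (h1 k j).le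
        _ ≤ ∑ _k ∈ K, u * Real.exp (-(d / 100)) := by
            refine Finset.sum_le_sum fun k hk => ?_
            exact mul_le_mul_of_nonneg_left (Finset.mem_filter.1 hk).2 hu0.le
        _ = K.card * (u * Real.exp (-(d / 100))) := by
            rw [Finset.sum_const, nsmul_eq_mul]
        _ ≤ N * (u * Real.exp (-(d / 100))) := by
            have : (K.card : ℝ) ≤ N := by
              have := Finset.card_le_univ K
              rw [Fintype.card_fin] at this
              exact_mod_cast this
            gcongr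
        _ = N * Real.exp (-(d / 100)) * u := by ring
    linarith
  -- third test function
  have t3 : (1 - 34 / d) * S2 - 25 / (2 * d) * u ≤ disc t a := by
    set φ : (Fin d → ℝ) → ℝ := fun x => if ∑ j, x j < 3 / 5 * d then 1 else 0 with hφ
    have hset : MeasurableSet {x : Fin d → ℝ | ∑ j, x j < 3 / 5 * d} :=
      measurableSet_lt (Finset.measurable_sum _ fun j _ => measurable_pi_apply j)
        measurable_const
    have hφm : Measurable φ := Measurable.ite hset measurable_const measurable_const
    have hφ0 : ∀ x, 0 ≤ φ x := by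
      intro x
      simp only [hφ]
      split_ifs <;> norm_num
    have hφ1 : ∀ x, |φ x| ≤ 1 := by
      intro x
      rw [abs_of_nonneg (hφ0 x)]
      simp only [hφ]
      split_ifs <;> norm_num
    have h2 := test_le (t := t) (a := a) hφm hφ1
    have h3 := tail_mu hd0
    have h5 : ∀ k ∈ Kᶜ, (1 - 34 / d) * b k ≤ ∫ x, φ x * bx (t k) x ∂(cube d) := by
      intro k hk
      have hk' : Real.exp (-(d / 100)) < ∏ j, (1 - t k j ^ 2) := by
        rw [hK, Finset.mem_compl, Finset.mem_filter] at hk
        push Not at hk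
        exact hk (Finset.mem_univ _)
      have h6 : ∏ j, (1 - t k j ^ 2) ≤ Real.exp (-∑ j, t k j ^ 2) := by
        rw [← Finset.sum_neg_distrib, Real.exp_sum]
        refine Finset.prod_le_prod (fun j _ => ?_) fun j _ => ?_
        · have := h0 k j
          have := h1 k j
          nlinarith
        · have := Real.add_one_le_exp (-(t k j ^ 2))
          linarith
      have h7 : ∑ j, t k j ^ 2 < d / 100 := by
        have := Real.exp_lt_exp.1 (hk'.trans_le h6)
        linarith
      have h8 : ∑ j, t k j ≤ d / 10 := by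
        have h9 : (∑ j, t k j) ^ 2 ≤ d * ∑ j, t k j ^ 2 := by
          have := sq_sum_le_card_mul_sum_sq (s := (Finset.univ : Finset (Fin d)))
            (f := fun j => t k j)
          simpa using this
        have h10 : (∑ j, t k j) ^ 2 ≤ (d / 10) ^ 2 := by
          refine h9.trans ?_
          have : (d : ℝ) * ∑ j, t k j ^ 2 ≤ d * (d / 100) := by gcongr
          refine this.trans (le_of_eq ?_)
          ring
        exact (abs_le_of_sq_le_sq' h10 (by positivity)).2
      have h11 := tail_box hd0 (h0 k) (h1 k) h8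
      have h12 : ∫ x, φ x * bx (t k) x ∂(cube d) = b k -
          ∫ x, (if ∑ j, x j < 3 / 5 * d then (0 : ℝ) else 1) * bx (t k) x ∂(cube d) := by
        rw [← hbi k, ← integral_sub (ibx k)]
        · refine integral_congr_ae (Filter.Eventually.of_forall fun x => ?_)
          simp only [hφ]
          split_ifs <;> ring
        · refine integrable_bdd (c := 1) ((Measurable.ite hset measurable_const
            measurable_const).mul (bx_measurable _)) fun x _ => ?_
          have h13 := bx_nonneg (t k) x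
          have h14 := bx_le_one (t k) x
          rw [abs_of_nonneg (mul_nonneg (by split_ifs <;> norm_num) h13)]
          split_ifs <;> linarith
      rw [h12]
      have : (1 - 34 / (d : ℝ)) * b k = b k - 34 / d * b k := by ring
      rw [this]
      linarith
    have h15 : (1 - 34 / d) * S2 ≤ ∑ k, a k * ∫ x, φ x * bx (t k) x ∂(cube d) := by
      calc (1 - 34 / d) * S2 = ∑ k ∈ Kᶜ, a k * ((1 - 34 / d) * b k) := by
            rw [hS2, Finset.mul_sum]
            exact Finset.sum_congr rfl fun k _ => by ring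
        _ ≤ ∑ k ∈ Kᶜ, a k * ∫ x, φ x * bx (t k) x ∂(cube d) :=
            Finset.sum_le_sum fun k hk => mul_le_mul_of_nonneg_left (h5 k hk) (ha k)
        _ ≤ ∑ k, a k * ∫ x, φ x * bx (t k) x ∂(cube d) := by
            refine Finset.sum_le_sum_of_subset_of_nonneg (Finset.subset_univ _) fun k _ _ => ?_
            exact mul_nonneg (ha k) (integral_nonneg fun x => mul_nonneg (hφ0 x) (bx_nonneg _ _))
    linarith
  -- arithmetic
  have hS2n : 0 ≤ S2 := Finset.sum_nonneg fun k _ => mul_nonneg (ha k) (hb0 k)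
  have q1 : 34 / (d : ℝ) ≤ 1 / 100 := by
    rw [div_le_div_iff₀ (by linarith) (by norm_num)]
    linarith
  have q2 : 25 / (2 * (d : ℝ)) ≤ 1 / 250 := by
    rw [div_le_div_iff₀ (by linarith) (by norm_num)]
    linarith
  have q3 : 99 / 100 * S2 ≤ (1 / 7 + 1 / 250) * u := by
    have r1 : 99 / 100 * S2 ≤ (1 - 34 / d) * S2 := by
      apply mul_le_mul_of_nonneg_right _ hS2n
      linarith
    have r2 : 25 / (2 * (d : ℝ)) * u ≤ 1 / 250 * u := mul_le_mul_of_nonneg_right q2 hu0.le
    linarith
  have q4 : 1 / 2 * u ≤ N * Real.exp (-(d / 100)) * u := by linarith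
  have q5 : 1 / 2 ≤ N * Real.exp (-(d / 100)) := le_of_mul_le_mul_right q4 hu0
  rw [Real.exp_neg, ← div_eq_mul_inv, le_div_iff₀ (Real.exp_pos _)] at q5
  linarith

/-- The infimum of the worst case error over the non-negative formulas with `N` nodes. -/
noncomputable def eplus (N d : ℕ) : ℝ :=
  ⨅ A : {p : (Fin N → Fin d → ℝ) × (Fin N → ℝ) //
    (∀ k j, 0 ≤ p.1 k j ∧ p.1 k j < 1) ∧ ∀ k, 0 ≤ p.2 k}, disc A.1.1 A.1.2

/-- The least number of nodes with error at most `ε 2^(-d)` (infinity if there is none). -/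
noncomputable def Nplus (ε : ℝ) (d : ℕ) : ℕ∞ :=
  sInf {M : ℕ∞ | ∃ N : ℕ, M = N ∧ eplus N d ≤ ε * (1 / 2) ^ d}

theorem main : ∃ ε > (0 : ℝ), ∃ C > (1 : ℝ), ∃ d₀ : ℕ, ∀ d ≥ d₀,
    ENNReal.ofReal (C ^ d) ≤ (Nplus ε d : ENNReal) := by
  refine ⟨1 / 8, by norm_num, Real.exp (1 / 200), ?_, 3400, fun d hd => ?_⟩
  · rw [gt_iff_lt, Real.one_lt_exp_iff]
    norm_num
  have hd' : (3400 : ℝ) ≤ d := by exact_mod_cast hd
  have key : ∀ N : ℕ, eplus N d ≤ 1 / 8 * (1 / 2) ^ d → Real.exp (1 / 200) ^ d ≤ N := by
    intro N hN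
    have hne : Nonempty {p : (Fin N → Fin d → ℝ) × (Fin N → ℝ) //
        (∀ k j, 0 ≤ p.1 k j ∧ p.1 k j < 1) ∧ ∀ k, 0 ≤ p.2 k} :=
      ⟨⟨(fun _ _ => 0, fun _ => 0), fun _ _ => ⟨le_rfl, zero_lt_one⟩, fun _ => le_rfl⟩⟩
    have hpow : (0 : ℝ) < (1 / 2) ^ d := by positivity
    have h1 : eplus N d < 1 / 7 * (1 / 2) ^ d := by
      refine hN.trans_lt ?_
      linarith
    obtain ⟨A, hA⟩ := exists_lt_of_ciInf_lt h1
    have h2 := card_ge hd (fun k j => (A.2.1 k j).1) (fun k j => (A.2.1 k j).2) A.2.2 hA
    have h3 : Real.exp (1 / 200) ^ d = Real.exp (d / 200) := by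
      rw [← Real.exp_nat_mul]
      congr 1
      ring
    rw [h3]
    refine le_trans ?_ h2
    have h4 : Real.exp (d / 100) = Real.exp (d / 200) * Real.exp (d / 200) := by
      rw [← Real.exp_add]
      congr 1
      ring
    have h5 : 2 ≤ Real.exp (d / 200) := by
      have := Real.add_one_le_exp ((d : ℝ) / 200)
      linarith
    rw [h4]
    have := Real.exp_pos ((d : ℝ) / 200)
    nlinarith
  rcases Set.eq_empty_or_nonempty {M : ℕ∞ | ∃ N : ℕ, M = N ∧ eplus N d ≤ 1 / 8 * (1 / 2) ^ d}
    with h | h
  · unfold Nplus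
    rw [h, sInf_empty]
    simp
  · have hmem := csInf_mem h
    obtain ⟨N, hN1, hN2⟩ := hmem
    unfold Nplus
    rw [hN1]
    have h1 := key N hN2
    calc ENNReal.ofReal (Real.exp (1 / 200) ^ d) ≤ ENNReal.ofReal (N : ℝ) :=
          ENNReal.ofReal_le_ofReal h1
      _ = ((N : ℕ∞) : ENNReal) := by simp

end Pool.Agent.R228.LD
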