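import Mathlib

/-!
# Second moments for product weights on the cube
-/

set_option autoImplicit false

namespace Pool.Agent.R228.LD

open MeasureTheory

variable {d : ℕ}

/-- Lebesgue measure on the unit interval. -/
noncomputable def rho : Measure ℝ := volume.restrict (Set.Icc 0 1)

/-- Lebesgue measure on the unit cube. -/
noncomputable def cube (d : ℕ) : Measure (Fin d → ℝ) := Measure.pi fun _ => rho

instance : IsProbabilityMeasure rho := ⟨by simp [rho]⟩

instance : IsProbabilityMeasure (cube d) := by
  unfold cube
  infer_instance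

theorem cube_eq : cube d = (volume : Measure (Fin d → ℝ)).restrict (Set.Icc 0 1) := by
  have h : (Set.Icc (0 : Fin d → ℝ) 1) = Set.univ.pi fun _ => Set.Icc (0 : ℝ) 1 := by
    rw [Set.pi_univ_Icc]
    rfl
  rw [h, volume_pi, Measure.restrict_pi_pi]
  rfl

/-- Continuous functions on the line are integrable for `rho`. -/
theorem integrable_cont {f : ℝ → ℝ} (hf : Continuous f) : Integrable f rho := by
  unfold rho
  exact hf.continuousOn.integrableOn_compact isCompact_Icc

theorem integral_rho (f : ℝ → ℝ) : ∫ x, f x ∂rho = ∫ x in (0 : ℝ)..1, f x := by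
  unfold rho
  rw [intervalIntegral.integral_of_le zero_le_one, integral_Icc_eq_integral_Ioc]

/-- The indicator of `t < x`. -/
noncomputable def st (t x : ℝ) : ℝ := if t < x then 1 else 0

theorem st_nonneg (t x : ℝ) : 0 ≤ st t x := by
  unfold st
  split_ifs <;> norm_num

theorem st_le_one (t x : ℝ) : st t x ≤ 1 := by
  unfold st
  split_ifs <;> norm_num

theorem st_measurable (t : ℝ) : Measurable (st t) := by
  unfold st
  exact Measurable.ite (measurableSet_lt measurable_const measurable_id) measurable_const
    measurable_const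

theorem integrable_st {f : ℝ → ℝ} (hf : Continuous f) (t : ℝ) :
    Integrable (fun x => f x * st t x) rho := by
  refine (integrable_cont hf.abs).mono' ?_ ?_
  · exact (hf.measurable.mul (st_measurable t)).aestronglyMeasurable
  · refine Filter.Eventually.of_forall fun x => ?_
    rw [Real.norm_eq_abs, abs_mul, abs_of_nonneg (st_nonneg t x)]
    calc |f x| * st t x ≤ |f x| * 1 := by
          exact mul_le_mul_of_nonneg_left (st_le_one t x) (abs_nonneg _)
      _ = |f x| := mul_one _

/-- Integration against the indicator. -/
theorem integral_st {f : ℝ → ℝ} {t : ℝ} (ht0 : 0 ≤ t) (ht1 : t ≤ 1) :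
    ∫ x, f x * st t x ∂rho = ∫ x in t..1, f x := by
  have h1 : ∀ x, f x * st t x = (Set.Ioi t).indicator f x := by
    intro x
    unfold st
    by_cases h : t < x
    · rw [if_pos h, mul_one, Set.indicator_of_mem (Set.mem_Ioi.2 h)]
    · rw [if_neg h, mul_zero, Set.indicator_of_notMem]
      simpa using h
  simp only [h1]
  rw [integral_indicator measurableSet_Ioi, intervalIntegral.integral_of_le ht1]
  unfold rho
  rw [Measure.restrict_restrict measurableSet_Ioi]
  congr 2
  ext x
  simp only [Set.mem_inter_iff, Set.mem_Ioi, Set.mem_Icc, Set.mem_Ioc]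
  constructor
  · rintro ⟨a, _, b⟩
    exact ⟨a, b⟩
  · rintro ⟨a, b⟩
    exact ⟨a, by linarith, b⟩

/-- The second moment of a sum of centred coordinates. -/
theorem second_moment (w : Fin d → ℝ → ℝ) (m v : Fin d → ℝ)
    (h0 : ∀ j, Integrable (w j) rho)
    (h1 : ∀ j, Integrable (fun x => (x - m j) * w j x) rho)
    (h2 : ∀ j, Integrable (fun x => (x - m j) ^ 2 * w j x) rho)
    (hm : ∀ j, ∫ x, (x - m j) * w j x ∂rho = 0)
    (hv : ∀ j, ∫ x, (x - m j) ^ 2 * w j x ∂rho = v j * ∫ x, w j x ∂rho) :
    Integrable (fun x : Fin d → ℝ => (∑ j, (x j - m j)) ^ 2 * ∏ j, w j (x j)) (cube d) ∧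
    ∫ x, (∑ j, (x j - m j)) ^ 2 * ∏ j, w j (x j) ∂(cube d) =
      (∑ j, v j) * ∏ j, ∫ x, w j x ∂rho := by
  classical
  set F : Fin d → Fin d → Fin d → ℝ → ℝ := fun i j k x =>
    (if k = i then (x - m k) else 1) * (if k = j then (x - m k) else 1) * w k x with hF
  have hFi : ∀ i j k, Integrable (F i j k) rho := by
    intro i j k
    simp only [hF]
    by_cases hi : k = i
    · by_cases hj : k = j
      · simp only [if_pos hi, if_pos hj]
        refine (h2 k).congr (Filter.Eventually.of_forall fun x => ?_)
        simp only
        ring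
      · simp only [if_pos hi, if_neg hj, mul_one]
        exact h1 k
    · by_cases hj : k = j
      · simp only [if_neg hi, if_pos hj, one_mul]
        exact h1 k
      · simp only [if_neg hi, if_neg hj, one_mul]
        exact h0 k
  have hprod : ∀ i j (x : Fin d → ℝ), ∏ k, F i j k (x k) =
      (x i - m i) * (x j - m j) * ∏ k, w k (x k) := by
    intro i j x
    simp only [hF]
    rw [Finset.prod_mul_distrib, Finset.prod_mul_distrib]
    congr 1
    congr 1
    · rw [Finset.prod_ite_eq' Finset.univ i fun k => x k - m k]
      simp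
    · rw [Finset.prod_ite_eq' Finset.univ j fun k => x k - m k]
      simp
  have hsum : ∀ x : Fin d → ℝ, (∑ j, (x j - m j)) ^ 2 * ∏ j, w j (x j) =
      ∑ i, ∑ j, ∏ k, F i j k (x k) := by
    intro x
    simp only [hprod]
    rw [sq, Finset.sum_mul_sum, Finset.sum_mul]
    refine Finset.sum_congr rfl fun i _ => ?_
    rw [Finset.sum_mul]
  have hint : ∀ i j, Integrable (fun x : Fin d → ℝ => ∏ k, F i j k (x k)) (cube d) :=
    fun i j => Integrable.fintype_prod fun k => hFi i j k
  have hval : ∀ i j, ∫ x, ∏ k, F i j k (x k) ∂(cube d) =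
      if i = j then v i * ∏ k, ∫ x, w k x ∂rho else 0 := by
    intro i j
    unfold cube
    rw [integral_fintype_prod_eq_prod]
    split_ifs with h
    · subst h
      rw [← Finset.mul_prod_erase Finset.univ (fun k => ∫ x, F i i k x ∂rho) (Finset.mem_univ i),
        ← Finset.mul_prod_erase Finset.univ (fun k => ∫ x, w k x ∂rho) (Finset.mem_univ i),
        ← mul_assoc]
      congr 1
      · rw [← hv i]
        refine integral_congr_ae (Filter.Eventually.of_forall fun x => ?_)
        simp only [hF, if_true]
        ring
      · refine Finset.prod_congr rfl fun k hk => ?_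
        refine integral_congr_ae (Filter.Eventually.of_forall fun x => ?_)
        simp only [hF, if_neg (Finset.ne_of_mem_erase hk), one_mul]
    · refine Finset.prod_eq_zero (Finset.mem_univ i) ?_
      rw [← hm i]
      refine integral_congr_ae (Filter.Eventually.of_forall fun x => ?_)
      simp only [hF, if_true, if_neg h, mul_one]
  constructor
  · simp only [hsum]
    exact integrable_finsetSum _ fun i _ => integrable_finsetSum _ fun j _ => hint i j
  · simp only [hsum]
    rw [integral_finsetSum _ fun i _ => integrable_finsetSum _ fun j _ => hint i j]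
    rw [Finset.sum_mul]
    refine Finset.sum_congr rfl fun i _ => ?_
    rw [integral_finsetSum _ fun j _ => hint i j]
    simp only [hval]
    simp

end Pool.Agent.R228.LD
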